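import Pool.Agent.T9h7.RE.Main2
import Pool.Agent.T9h69.RE.Num
import Pool.Agent.T9h79.RE.Path
import Pool.Agent.T9h69.RE.CorA
import Pool.Agent.T9h36.RE.CorB

set_option autoImplicit false

/-!
Total space versus depth in resolution. Every space-aware refutation of total space `s` of a CNF
over `n` variables gives depth at most `K s (w (log (n+2))^3 + log (Λ+2))` if every window of
`Λ + 1` consecutive configurations contains one of width at most `w` (so at most
`K s w (log (n+2))^3` if all clauses have width at most `w`, `w` positive).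

Proof: a decision tree which moves between narrow configurations of the refutation that are true and
narrow configurations that are false. Clauses carry multiplicative weights; the clauses of a
configuration which appear early in the current interval (early for a scale `k` between `0` and
`log (s/w)`) are verified only after `2^k` further steps, since a false one allows a restart which
reduces the total weight by a factor `1 - 2^k w/s`. Between two consecutive narrow configurations:
bisection.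
-/

namespace Pool.Agent.Results.MP_ad9061_lc.ReturnTimes

open Filter

/-- `D` is the least depth of a resolution refutation of `F` (as in the frozen statement `S15209`):
`S` is the set of the clauses of the refutation, `r C` bounds the length of the longest path from
`C` to a clause of `F`. -/
def LeastDepth {n : ℕ} (F : Finset (Finset (Fin n × Bool))) (D : ℕ) : Prop :=
  IsLeast
    {d : ℕ | ∃ r : Finset (Fin n × Bool) → ℕ, ∃ S : Set (Finset (Fin n × Bool)),
      (∅ : Finset (Fin n × Bool)) ∈ S ∧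
      ∀ C ∈ S, r C ≤ d ∧
        (C ∈ F ∨
          ∃ A ∈ S, ∃ B ∈ S, ∃ v : Fin n,
            (v, true) ∈ A ∧ (v, false) ∈ B ∧
            C = A.erase (v, true) ∪ B.erase (v, false) ∧
            r A < r C ∧ r B < r C)}
    D

/-- `M 0, ..., M τ` is a space-aware refutation of `F` (as in `S15209`). -/
def Refutes {n : ℕ} (F : Finset (Finset (Fin n × Bool))) (τ : ℕ)
    (M : ℕ → Finset (Finset (Fin n × Bool))) : Prop :=
  M 0 = ∅ ∧ (∅ : Finset (Fin n × Bool)) ∈ M τ ∧
  ∀ t < τ,
    (∃ C ∈ F, M (t + 1) = insert C (M t)) ∨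
    (∃ A ∈ M t, ∃ B ∈ M t, ∃ v : Fin n,
      (v, true) ∈ A ∧ (v, false) ∈ B ∧
      M (t + 1) = insert (A.erase (v, true) ∪ B.erase (v, false)) (M t)) ∨
    M (t + 1) ⊆ M t

/-- the total space of the configuration `M t`: the number of literal occurrences -/
def size {n : ℕ} (M : ℕ → Finset (Finset (Fin n × Bool))) (t : ℕ) : ℕ := ∑ C ∈ M t, C.card

theorem result :
    -- (1) depth ≤ K · total space · (w log³ + log Λ) if the refutation returns to width w after at
    -- most Λ steps
    (∃ K : ℕ, ∀ (n : ℕ) (F : Finset (Finset (Fin n × Bool))) (D s w Λ τ : ℕ)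
      (M : ℕ → Finset (Finset (Fin n × Bool))), LeastDepth F D → Refutes F τ M →
      (∀ t ≤ τ, size M t ≤ s) →
      (∀ t, t + Λ ≤ τ → ∃ u, t ≤ u ∧ u ≤ t + Λ ∧ ∀ C ∈ M u, C.card ≤ w) →
      (D : ℝ) ≤ (K : ℝ) * (s : ℝ) *
        ((w : ℝ) * (Real.log ((n : ℝ) + 2)) ^ 3 + Real.log ((Λ : ℝ) + 2))) ∧
    -- (2) a tight refutation contains wide clauses during an exponentially long interval of time
    (∀ c : ℕ, ∃ n₀ : ℕ, ∀ n ≥ n₀, ∀ (F : Finset (Finset (Fin n × Bool))) (D τ : ℕ)
      (M : ℕ → Finset (Finset (Fin n × Bool))), LeastDepth F D → Refutes F τ M →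
      (∀ t ≤ τ, ((size M t : ℕ) : ℝ) ≤ Real.sqrt D * (Real.log n) ^ c) →
      ∃ S : ℕ, (∀ t ≤ τ, size M t ≤ S) ∧ (∃ t ≤ τ, size M t = S) ∧
        ∃ t Λ : ℕ, t + Λ ≤ τ ∧ Real.exp ((S : ℝ) / (Real.log n) ^ (2 * c + 1)) ≤ (Λ : ℝ) + 2 ∧
          ∀ u, t ≤ u → u ≤ t + Λ → ∃ C ∈ M u,
            (S : ℝ) ≤ (C.card : ℝ) * (Real.log n) ^ (2 * c + 4)) ∧
    -- (3) the negated form of the question for refutations which return to width (total
    -- space)^(1-δ) after at most exp((total space)^(1-δ)) steps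
    (∀ (F : (n : ℕ) → Finset (Finset (Fin n × Bool))) (D : ℕ → ℕ),
      (∀ n, LeastDepth (F n) (D n)) →
      (∀ k : ℕ, Tendsto (fun n : ℕ => (D n : ℝ) / Real.log (n : ℝ) ^ k) atTop atTop) →
      ∀ (c : ℕ) (δ : ℝ), 0 < δ → δ ≤ 1 →
        ∀ᶠ n in atTop, ∀ (τ s w Λ : ℕ) (M : ℕ → Finset (Finset (Fin n × Bool))),
          Refutes (F n) τ M → (∀ t ≤ τ, size M t ≤ s) → (w : ℝ) ≤ (s : ℝ) ^ (1 - δ) →
          (Λ : ℝ) ≤ Real.exp ((s : ℝ) ^ (1 - δ)) →
          (∀ t, t + Λ ≤ τ → ∃ u, t ≤ u ∧ u ≤ t + Λ ∧ ∀ C ∈ M u, C.card ≤ w) →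
          Real.sqrt (D n : ℝ) * Real.log (n : ℝ) ^ c < (s : ℝ)) := by
  have hm2 : Pool.Agent.T9h7.RE.MainBound2 :=
    Pool.Agent.T9h7.RE.main2 Pool.Agent.T9h69.RE.sNum Pool.Agent.T9h79.RE.sPath
  refine ⟨hm2, ?_, ?_⟩
  · intro c
    exact Pool.Agent.T9h69.RE.sCorA hm2 c
  · intro F D hD hlarge c δ hδ hδ1
    exact Pool.Agent.T9h36.RE.sCorB hm2 F D hD hlarge c δ hδ hδ1

end Pool.Agent.Results.MP_ad9061_lc.ReturnTimes
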