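import Pool.Agent.T9h7.RE.Main3
import Pool.Agent.T9h69.RE.Num
import Pool.Agent.T9h22.RE.PathG
import Pool.Agent.T9h66.RE.CorC

set_option autoImplicit false

/-!
Total space versus depth in resolution. Every space-aware refutation of total space `s` of a CNF
over `n` variables gives depth at most `K s w (log (n+2))^3` if no two consecutive configurations
both contain two clauses of width more than `w` (one clause may be arbitrarily wide). Hence a
refutation which attains the square root bound up to a polylogarithmic factor contains, at the same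
time, two clauses each of which fills a polylogarithmic fraction of the memory.

Proof: a decision tree which moves between configurations of the refutation that are true and
configurations that are false. Clauses carry multiplicative weights; the clauses of a configuration
which appear early in the current interval (early for a scale `k` between `0` and `log (s/w)`) are
verified only after `2^k` further steps, since a false one allows a restart which reduces the total
weight by a factor `1 - 2^k w/s`. One wide clause is false if and only if the configuration of its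
negated unit clauses is true, so that its evolution is, backwards in time, an instance of the same
game with clauses of width one.
-/

namespace Pool.Agent.Results.MP_ad9061_lc.TwoWideClauses

open Filter

/-- `D` is the least depth of a resolution refutation of `F` (as in the frozen statement `S15209`):
`S` is the set of the clauses of the refutation, `r C` bounds the length of the longest path from
`C` to a clause of `F`. -/
def LeastDepth {n : ℕ} (F : Finset (Finset (Fin n × Bool))) (D : ℕ) : Prop :=
  IsLeast
    {d : ℕ | ∃ r : Finset (Fin n × Bool) → ℕ, ∃ S : Set (Finset (Fin n × Bool)),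
      (∅ : Finset (Fin n × Bool)) ∈ S ∧
      ∀ C ∈ S, r C ≤ d ∧
        (C ∈ F ∨
          ∃ A ∈ S, ∃ B ∈ S, ∃ v : Fin n,
            (v, true) ∈ A ∧ (v, false) ∈ B ∧
            C = A.erase (v, true) ∪ B.erase (v, false) ∧
            r A < r C ∧ r B < r C)}
    D

/-- `M 0, ..., M τ` is a space-aware refutation of `F` (as in `S15209`). -/
def Refutes {n : ℕ} (F : Finset (Finset (Fin n × Bool))) (τ : ℕ)
    (M : ℕ → Finset (Finset (Fin n × Bool))) : Prop :=
  M 0 = ∅ ∧ (∅ : Finset (Fin n × Bool)) ∈ M τ ∧
  ∀ t < τ,
    (∃ C ∈ F, M (t + 1) = insert C (M t)) ∨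
    (∃ A ∈ M t, ∃ B ∈ M t, ∃ v : Fin n,
      (v, true) ∈ A ∧ (v, false) ∈ B ∧
      M (t + 1) = insert (A.erase (v, true) ∪ B.erase (v, false)) (M t)) ∨
    M (t + 1) ⊆ M t

/-- the total space of the configuration `M t`: the number of literal occurrences -/
def size {n : ℕ} (M : ℕ → Finset (Finset (Fin n × Bool))) (t : ℕ) : ℕ := ∑ C ∈ M t, C.card

/-- the configuration `A` contains at most one clause of width more than `w` -/
def OneWide {n : ℕ} (w : ℕ) (A : Finset (Finset (Fin n × Bool))) : Prop :=
  ∀ C ∈ A, ∀ C' ∈ A, w < C.card → w < C'.card → C = C'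

theorem result :
    -- (1) depth ≤ K · total space · w · log³ if only one clause at a time is wider than w
    (∃ K : ℕ, ∀ (n : ℕ) (F : Finset (Finset (Fin n × Bool))) (D s w τ : ℕ)
      (M : ℕ → Finset (Finset (Fin n × Bool))), LeastDepth F D → Refutes F τ M → 1 ≤ w →
      (∀ t ≤ τ, size M t ≤ s) →
      (∀ t < τ, OneWide w (M t) ∨ OneWide w (M (t + 1))) →
      (D : ℝ) ≤ (K : ℝ) * (s : ℝ) * (w : ℝ) * (Real.log ((n : ℝ) + 2)) ^ 3) ∧
    -- (2) refutations which attain the square root bound up to (log n)^c contain at some time two
    -- clauses, each of which fills a polylogarithmic fraction of the memory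
    (∀ (F : (n : ℕ) → Finset (Finset (Fin n × Bool))) (D : ℕ → ℕ),
      (∀ n, LeastDepth (F n) (D n)) →
      (∀ k : ℕ, Tendsto (fun n : ℕ => (D n : ℝ) / Real.log (n : ℝ) ^ k) atTop atTop) →
      ∀ c : ℕ, ∀ᶠ n in atTop, ∀ (τ : ℕ) (M : ℕ → Finset (Finset (Fin n × Bool))),
        Refutes (F n) τ M →
        (∀ t ≤ τ, ((size M t : ℕ) : ℝ) ≤ Real.sqrt (D n) * (Real.log n) ^ c) →
        ∃ t < τ, ∃ C ∈ M t, ∃ C' ∈ M t, C ≠ C' ∧ ∀ u ≤ τ,
          ((size M u : ℕ) : ℝ) ≤ (C.card : ℝ) * (Real.log n) ^ (2 * c + 4) ∧
          ((size M u : ℕ) : ℝ) ≤ (C'.card : ℝ) * (Real.log n) ^ (2 * c + 4)) := by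
  have hm3 : Pool.Agent.T9h7.RE.MainBound3 :=
    Pool.Agent.T9h7.RE.main3 Pool.Agent.T9h69.RE.sNum Pool.Agent.T9h22.RE.sPathG
  refine ⟨hm3, ?_⟩
  intro F D hD hlarge c
  exact Pool.Agent.T9h66.RE.sCorC hm3 F D hD hlarge c

end Pool.Agent.Results.MP_ad9061_lc.TwoWideClauses
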